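import Pool.Agent.KMil.Two

/-!
MP_da2a57_al (Koszulity of mod-p Galois cohomology), p = 2.
If every three-fold Pfister form over the field F is isotropic (by the Milnor conjecture in degree
three: if the third mod 2 Galois cohomology group of F vanishes), then the Milnor ring of F modulo 2,
which is the mod 2 Galois cohomology ring of F by the norm residue theorem, is Koszul.
-/

set_option autoImplicit false

namespace Pool.Agent.Results.MP_da2a57_al.IsotropicPfister

universe u

open Pool.Agent.KMil

theorem result (F : Type u) [Field F]
    (H : ∀ a b c : Fˣ, ∃ x : Fin 8 → F, x ≠ 0 ∧ pf3 (a : F) b c x = 0) :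
    IsKoszul (KMn 2 F) :=
  koszul_two H

end Pool.Agent.Results.MP_da2a57_al.IsotropicPfister
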